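import Pool.Agent.helper48.SG.SpecH

/-! sg:H16, oscillation on small arcs. -/

set_option autoImplicit false

open MeasureTheory Set Metric Filter Topology
open scoped ENNReal NNReal ComplexConjugate

namespace Pool.Agent.SG

/-- transport of a measure carried by the circle. -/
theorem H16_transport {Γ : Type} [Group Γ] (hB01 : B01_stmt) (A : DiscRep Γ) (γ : Γ) (m : Measure ℂ)
    (hm : m circᶜ = 0) (E : Set ℂ) (hE : MeasurableSet E) (hEc : E ⊆ circ) :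
    MeasurableSet (circ ∩ A.act γ ⁻¹' E) ∧ (m.map (A.act γ⁻¹)) (circ ∩ A.act γ ⁻¹' E) = m E := by
  obtain ⟨-, -, h3, -, -, h6, h7, h8, -, -⟩ := hB01 Γ A
  have hcm : MeasurableSet circ := isClosed_sphere.measurableSet
  have hM : MeasurableSet (circ ∩ A.act γ ⁻¹' E) := hcm.inter (h8 γ hE)
  refine ⟨hM, ?_⟩
  rw [Measure.map_apply (h8 γ⁻¹) hM]
  apply measure_congr
  have hae : ∀ᵐ ξ ∂m, ξ ∈ circ := by
    rw [ae_iff]
    exact hm
  filter_upwards [hae] with ξ hξ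
  have hξ1 : ‖ξ‖ = 1 := by simpa [circ] using hξ
  apply propext
  show ξ ∈ A.act γ⁻¹ ⁻¹' (circ ∩ A.act γ ⁻¹' E) ↔ ξ ∈ E
  simp only [mem_preimage, mem_inter_iff]
  rw [h7 γ ξ hξ1.le]
  constructor
  · exact fun h => h.2
  · intro h
    refine ⟨?_, h⟩
    have := h3 γ⁻¹ ξ hξ1
    simpa [circ] using this

theorem H16 (hH15 : H15_stmt) (hB01 : B01_stmt) (hB03 : B03_stmt) (hB04 : B04_stmt)
    (hB05 : B05_stmt) (hB11 : B11_stmt) : H16_stmt := by
  intro Γ _ A W ν C hC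
  obtain ⟨K₁, α, hK₁, hα, hα1, hmain⟩ := hH15 Γ A W ν C hC
  obtain ⟨C₁, hC₁, hpt⟩ := hB11 Γ A hC.coc
  obtain ⟨h31, -, -, h34, h35, -⟩ := hB03 Γ A
  obtain ⟨-, -, -, -, -, h16, -, -, -, -⟩ := hB01 Γ A
  have hC1p : 0 < C₁ := by linarith
  have hCp : 0 < C := by linarith [hC.one]
  have hνprob : IsProbabilityMeasure ν := hC.stat.prob
  have hlprob : IsProbabilityMeasure lam := hB05.1
  set c : ℝ := 1 / (2 * C₁ * (C₁ + 1)) with hc
  have hcpos : 0 < c := by positivity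
  have hc4 : c ≤ 1 / 4 := by
    rw [hc]
    apply one_div_le_one_div_of_le (by norm_num)
    nlinarith
  have hcC : C₁ * (C₁ + 1) * (2 * c) = 1 := by
    rw [hc]
    field_simp
  set r₀ : ℝ := c / (8 * C₁) with hr₀
  have hr₀pos : 0 < r₀ := by positivity
  set K : ℝ := K₁ * (C₁ / c) ^ α + C ^ 2 / r₀ ^ α with hK
  have hr₀α : 0 < r₀ ^ α := Real.rpow_pos_of_pos hr₀pos α
  have hCcα : 0 < (C₁ / c) ^ α := Real.rpow_pos_of_pos (by positivity) α
  have hKpos : 0 < K := by positivity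
  refine ⟨K, α, hKpos, hα, hα1, ?_⟩
  intro ζ r E E' hζ hr hr1 hE hE' hEs hEs'
  have hrα : 0 < r ^ α := Real.rpow_pos_of_pos hr α
  have hnn : 0 ≤ ν.real E' * lam.real E := mul_nonneg measureReal_nonneg measureReal_nonneg
  by_cases hrr : r ≤ r₀
  · -- small r
    obtain ⟨γ, hg1, hg2, hg3⟩ := hpt ζ r hζ hr hr1
    have hC1r : C₁ * r ≤ c / 8 := by
      calc C₁ * r ≤ C₁ * r₀ := by gcongr
        _ = c / 8 := by
          rw [hr₀]
          field_simp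
    have hrkk : r ≤ C₁ * A.kk γ := by
      rw [div_le_iff₀ hC1p] at hg1
      linarith
    have hkk : A.kk γ⁻¹ = A.kk γ := h35 γ
    have hpx : ‖A.pt γ⁻¹‖ < 1 := h34 γ⁻¹
    have hkd : A.kk γ⁻¹ = 1 - ‖A.pt γ⁻¹‖ ^ 2 := rfl
    have hpx2 : 1 / 2 ≤ ‖A.pt γ⁻¹‖ := by
      by_contra hlt
      push Not at hlt
      have h0 : 0 ≤ ‖A.pt γ⁻¹‖ := norm_nonneg _
      nlinarith
    have hpx0 : 0 < ‖A.pt γ⁻¹‖ := by linarith
    have hpd : 1 - ‖A.pt γ⁻¹‖ ≤ C₁ * r := by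
      have h0 : 1 - ‖A.pt γ⁻¹‖ ≤ 1 - ‖A.pt γ⁻¹‖ ^ 2 := by nlinarith
      linarith
    set u : ℂ := A.pt γ⁻¹ / (‖A.pt γ⁻¹‖ : ℂ) with hu
    have hne : (‖A.pt γ⁻¹‖ : ℂ) ≠ 0 := by exact_mod_cast hpx0.ne'
    have hun : ‖u‖ = 1 := by
      rw [hu, norm_div, Complex.norm_real, Real.norm_eq_abs, abs_of_pos hpx0, div_self hpx0.ne']
    have hpu : A.pt γ⁻¹ = (‖A.pt γ⁻¹‖ : ℂ) * u := by
      rw [hu]
      field_simp
    have hum : ‖u - A.pt γ⁻¹‖ = 1 - ‖A.pt γ⁻¹‖ := by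
      have h1 : u - A.pt γ⁻¹ = ((1 - ‖A.pt γ⁻¹‖ : ℝ) : ℂ) * u := by
        conv_lhs => rw [hpu]
        push_cast
        ring
      rw [h1, norm_mul, hun, mul_one, Complex.norm_real, Real.norm_eq_abs, abs_of_pos (by linarith)]
    have hup : ‖u + A.pt γ⁻¹‖ = 1 + ‖A.pt γ⁻¹‖ := by
      have h1 : u + A.pt γ⁻¹ = ((1 + ‖A.pt γ⁻¹‖ : ℝ) : ℂ) * u := by
        conv_lhs => rw [hpu]
        push_cast
        ring
      rw [h1, norm_mul, hun, mul_one, Complex.norm_real, Real.norm_eq_abs, abs_of_pos (by linarith)]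
    have hHu : A.Hu u γ⁻¹ ≤ C₁ * r := by
      unfold DiscRep.Hu
      rw [hum, hup, div_le_iff₀ (by linarith)]
      have h1 : 0 ≤ C₁ * r * ‖A.pt γ⁻¹‖ := by positivity
      nlinarith
    have hEc : E ⊆ circ := fun ξ hξ => (hEs hξ).2
    have hEc' : E' ⊆ circ := fun ξ hξ => (hEs' hξ).2
    -- the transported sets are far from u
    have hfar : ∀ F : Set ℂ, F ⊆ closedBall ζ r ∩ circ → circ ∩ A.act γ ⁻¹' F ⊆ far u c := by
      intro F hF η hη
      obtain ⟨hη1, hη2⟩ := hη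
      have hηn : ‖η‖ = 1 := by simpa [circ] using hη1
      refine ⟨hη1, ?_⟩
      obtain ⟨hξ1, hξ2⟩ := hF hη2
      set ξ : ℂ := A.act γ η with hξ
      have hξn : ‖ξ‖ = 1 := by simpa [circ] using hξ2
      have hback : A.act γ⁻¹ ξ = η := h16 γ η hηn.le
      have h1 : ‖ξ - A.pt γ‖ ≤ C₁ * (C₁ + 1) * A.kk γ := by
        rw [mem_closedBall, dist_eq_norm] at hξ1
        calc ‖ξ - A.pt γ‖ = ‖(ξ - ζ) + (ζ - A.pt γ)‖ := by ring_nf
          _ ≤ ‖ξ - ζ‖ + ‖ζ - A.pt γ‖ := norm_add_le _ _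
          _ ≤ r + C₁ * r := add_le_add hξ1 hg3
          _ = (C₁ + 1) * r := by ring
          _ ≤ (C₁ + 1) * (C₁ * A.kk γ) := by gcongr
          _ = C₁ * (C₁ + 1) * A.kk γ := by ring
      have h2 := (hB04 Γ A γ⁻¹).1 ξ hξn
      rw [inv_inv, hback, hkk] at h2
      have hkpos : 0 < A.kk γ := (h31 γ).1
      have h3 : 2 * c ≤ ‖η - A.pt γ⁻¹‖ := by
        by_contra hlt
        push Not at hlt
        have h4 : A.kk γ ≤ ‖η - A.pt γ⁻¹‖ * (C₁ * (C₁ + 1) * A.kk γ) := by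
          rw [← h2]
          rw [h2]
          calc A.kk γ = ‖η - A.pt γ⁻¹‖ * ‖ξ - A.pt γ‖ := h2.symm
            _ ≤ ‖η - A.pt γ⁻¹‖ * (C₁ * (C₁ + 1) * A.kk γ) :=
              mul_le_mul_of_nonneg_left h1 (norm_nonneg _)
        have h5 : ‖η - A.pt γ⁻¹‖ * (C₁ * (C₁ + 1) * A.kk γ) <
            2 * c * (C₁ * (C₁ + 1) * A.kk γ) :=
          mul_lt_mul_of_pos_right hlt (by positivity)
        have h6 : 2 * c * (C₁ * (C₁ + 1) * A.kk γ) = A.kk γ := by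
          calc 2 * c * (C₁ * (C₁ + 1) * A.kk γ) = (C₁ * (C₁ + 1) * (2 * c)) * A.kk γ := by ring
            _ = A.kk γ := by rw [hcC, one_mul]
        linarith
      have h4 : ‖η - A.pt γ⁻¹‖ ≤ ‖η - u‖ + ‖u - A.pt γ⁻¹‖ := by
        calc ‖η - A.pt γ⁻¹‖ = ‖(η - u) + (u - A.pt γ⁻¹)‖ := by ring_nf
          _ ≤ ‖η - u‖ + ‖u - A.pt γ⁻¹‖ := norm_add_le _ _
      rw [hum] at h4
      linarith
    obtain ⟨hM1, hν1⟩ := H16_transport hB01 A γ ν hC.stat.supp E hE hEc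
    obtain ⟨hM2, hν2⟩ := H16_transport hB01 A γ ν hC.stat.supp E' hE' hEc'
    obtain ⟨-, hl1⟩ := H16_transport hB01 A γ lam hB05.2.1 E hE hEc
    obtain ⟨-, hl2⟩ := H16_transport hB01 A γ lam hB05.2.1 E' hE' hEc'
    have h1 := hmain u c (C₁ * r) (circ ∩ A.act γ ⁻¹' E) (circ ∩ A.act γ ⁻¹' E') γ⁻¹ hun hcpos
      (by linarith) (by positivity) (by linarith) hM1 hM2 (hfar E hEs) (hfar E' hEs') hHu
    have e1 : (nux A ν γ⁻¹).real (circ ∩ A.act γ ⁻¹' E) = ν.real E := by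
      unfold nux Measure.real
      rw [hν1]
    have e2 : (nux A ν γ⁻¹).real (circ ∩ A.act γ ⁻¹' E') = ν.real E' := by
      unfold nux Measure.real
      rw [hν2]
    have e3 : (lax A γ⁻¹).real (circ ∩ A.act γ ⁻¹' E) = lam.real E := by
      unfold lax Measure.real
      rw [hl1]
    have e4 : (lax A γ⁻¹).real (circ ∩ A.act γ ⁻¹' E') = lam.real E' := by
      unfold lax Measure.real
      rw [hl2]
    rw [e1, e2, e3, e4] at h1
    refine le_trans h1 (mul_le_mul_of_nonneg_right ?_ hnn)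
    have h2 : (C₁ * r / c) ^ α = (C₁ / c) ^ α * r ^ α := by
      rw [← Real.mul_rpow (by positivity) hr.le]
      congr 1
      ring
    rw [h2, hK, add_mul]
    have h3 : 0 ≤ C ^ 2 / r₀ ^ α * r ^ α := by positivity
    linarith
  · -- large r
    push Not at hrr
    have h1 : ν.real E ≤ C * lam.real E := by
      have h2 := hC.nu_le E hE
      have h3 := ENNReal.toReal_mono (ENNReal.mul_ne_top ENNReal.ofReal_ne_top (measure_ne_top lam E)) h2
      rw [ENNReal.toReal_mul, ENNReal.toReal_ofReal hCp.le] at h3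
      exact h3
    have h2 : lam.real E' ≤ C * ν.real E' := by
      have h2 := hC.le_nu E' hE'
      have h3 := ENNReal.toReal_mono (ENNReal.mul_ne_top ENNReal.ofReal_ne_top (measure_ne_top ν E')) h2
      rw [ENNReal.toReal_mul, ENNReal.toReal_ofReal hCp.le] at h3
      exact h3
    have h3 : ν.real E * lam.real E' ≤ C ^ 2 * (ν.real E' * lam.real E) := by
      calc ν.real E * lam.real E' ≤ (C * lam.real E) * (C * ν.real E') :=
            mul_le_mul h1 h2 measureReal_nonneg (mul_nonneg hCp.le measureReal_nonneg)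
        _ = C ^ 2 * (ν.real E' * lam.real E) := by ring
    refine le_trans h3 (mul_le_mul_of_nonneg_right ?_ hnn)
    have h4 : r₀ ^ α ≤ r ^ α := Real.rpow_le_rpow hr₀pos.le hrr.le hα.le
    have h5 : C ^ 2 ≤ C ^ 2 / r₀ ^ α * r ^ α := by
      rw [div_mul_eq_mul_div, le_div_iff₀ hr₀α]
      exact mul_le_mul_of_nonneg_left h4 (by positivity)
    rw [hK, add_mul]
    have h6 : 0 ≤ K₁ * (C₁ / c) ^ α * r ^ α := by positivity
    linarith

end Pool.Agent.SG
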