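import Pool.Agent.helper56.SG.SpecG

/-! sg:KEQ, the operators commute with isometries. -/

set_option autoImplicit false

open MeasureTheory Set Metric Filter Topology
open scoped ENNReal NNReal ComplexConjugate
open Pool.Agent.SG

noncomputable section

namespace Pool.Agent.SGG

theorem KEQ_ae : ∀ᵐ z ∂hyp, z ∈ ball (0 : ℂ) 1 := by
  unfold hyp
  exact (withDensity_absolutelyContinuous _ _).ae_le (ae_restrict_mem measurableSet_ball)

theorem KEQ (hMOB : MOB_stmt) (hCHV : CHV_stmt) (hKNB : KNB_stmt) : KEQ_stmt := by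
  intro t ht ht1 a b hab u hu x hx
  obtain ⟨-, -, hm, -, -, -, -, hpp, -⟩ := hMOB a b hab
  have hmx := hm x hx
  have hg : CB fun y => ker t (mob a b x) y * u y := ((hKNB t ht ht1).2 _ hmx).1.mul hu
  have h1 := hCHV a b hab _ hg
  unfold KK
  congr 1
  rw [← h1]
  apply integral_congr_ae
  filter_upwards [KEQ_ae] with z hz
  show ker t (mob a b x) (mob a b z) * u (mob a b z) = ker t x z * u (mob a b z)
  unfold ker
  rw [hpp x hx z hz]

end Pool.Agent.SGG
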