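import Pool.Agent.helper24.SG.SpecD

/-! sg:D06. -/

set_option autoImplicit false

open MeasureTheory Set Metric Filter Topology
open scoped ENNReal NNReal ComplexConjugate

namespace Pool.Agent.SG

theorem D06 (h1 : D01_stmt) (h4 : D04_stmt) (h5 : D05_stmt) : D06_stmt := by
  intro q V ν hq hν hν0 hVm hV hc
  have hH : ∀ N, MeasurableSet (half V N) ∧ 1 / 2 ≤ ν (half V N) := fun N => h1 ν V N hν hν0 hVm hV
  have hT : ∀ n : ℕ, MeasurableSet (⋃ N : ℕ, ⋃ _ : n ≤ N, half V N) := fun n =>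
    MeasurableSet.iUnion fun N => MeasurableSet.iUnion fun _ => (hH N).1
  refine ⟨lsup (half V), MeasurableSet.iInter hT, ?_, ?_⟩
  · have hanti : Antitone fun n : ℕ => ⋃ N : ℕ, ⋃ _ : n ≤ N, half V N := by
      intro a b hab x hx
      simp only [mem_iUnion] at hx ⊢
      obtain ⟨N, hN, hx⟩ := hx
      exact ⟨N, hab.trans hN, hx⟩
    unfold lsup
    rw [hanti.measure_iInter (fun n => (hT n).nullMeasurableSet) ⟨0, measure_ne_top ν _⟩]
    refine le_iInf fun n => le_trans (hH n).2 (measure_mono ?_)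
    intro x hx
    simp only [mem_iUnion]
    exact ⟨n, le_refl n, hx⟩
  · exact h5 q (half V) hq (fun N x hx => hx.1) (h4 q V (by omega) hc)

end Pool.Agent.SG
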