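import Pool.Agent.helper3.SG.SpecS

/-! sg:S20, growth along the group. -/

set_option autoImplicit false

open MeasureTheory Set Metric Filter Topology
open scoped ENNReal NNReal ComplexConjugate

namespace Pool.Agent.SG

section
variable {Γ : Type} [Group Γ]

theorem S20_fin (W : Walk Γ) {s : Γ} (hs : s ∈ W.S) : W.μ s ≠ ∞ := by
  have h1 : W.μ s ≤ ∑ t ∈ W.S, W.μ t := Finset.single_le_sum (fun _ _ => zero_le) hs
  rw [W.sum] at h1
  exact ne_top_of_le_ne_top ENNReal.one_ne_top h1

theorem S20_sum (W : Walk Γ) : ∑ s ∈ W.S, (W.μ s).toReal = 1 := by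
  rw [← ENNReal.toReal_sum (fun s hs => S20_fin W hs), W.sum, ENNReal.toReal_one]

theorem S20_nonneg (W : Walk Γ) (h : Γ → ℝ) (l : ℝ) (h0 : ∀ x, 0 ≤ h x)
    (hl : ∀ x, W.avr h x = h x + l) : 0 ≤ l := by
  have key : ∀ n : ℕ, ∀ x, 0 ≤ h x + n * l := by
    intro n
    induction n with
    | zero => intro x; simpa using h0 x
    | succ n ih =>
      intro x
      have h1 : h x + ((n + 1 : ℕ) : ℝ) * l = W.avr h x + n * l := by
        rw [hl x]
        push_cast
        ring
      have h2 : W.avr h x + n * l = ∑ s ∈ W.S, (W.μ s).toReal * (h (x * s) + n * l) := by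
        unfold Walk.avr
        simp only [mul_add, Finset.sum_add_distrib]
        rw [← Finset.sum_mul, S20_sum, one_mul]
      rw [h1, h2]
      exact Finset.sum_nonneg fun s _ => mul_nonneg ENNReal.toReal_nonneg (ih _)
  by_contra hneg
  push Not at hneg
  obtain ⟨n, hn⟩ := exists_nat_gt (h 1 / (-l))
  rw [div_lt_iff₀ (by linarith)] at hn
  have := key n 1
  linarith

theorem S20 : S20_stmt := by
  intro Γ _ W g
  have key : ∀ g ∈ Submonoid.closure (W.S : Set Γ), ∃ C : ℝ, 0 ≤ C ∧
      ∀ (h : Γ → ℝ) (l : ℝ), (∀ x, 0 ≤ h x) → (∀ x, W.avr h x = h x + l) →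
        ∀ x, h (x * g) ≤ C * (h x + l) := by
    intro g hg
    induction hg using Submonoid.closure_induction with
    | mem s hs =>
      have hs' : s ∈ W.S := hs
      have hp : 0 < (W.μ s).toReal := ENNReal.toReal_pos (W.pos s hs') (S20_fin W hs')
      refine ⟨1 / (W.μ s).toReal, by positivity, ?_⟩
      intro h l h0 hl x
      have h1 : (W.μ s).toReal * h (x * s) ≤ W.avr h x := by
        unfold Walk.avr
        exact Finset.single_le_sum (f := fun t => (W.μ t).toReal * h (x * t))
          (fun t _ => mul_nonneg ENNReal.toReal_nonneg (h0 _)) hs'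
      rw [hl x] at h1
      rw [div_mul_eq_mul_div, one_mul, le_div_iff₀ hp]
      linarith
    | one =>
      refine ⟨1, zero_le_one, ?_⟩
      intro h l h0 hl x
      have h1 := S20_nonneg W h l h0 hl
      rw [mul_one]
      linarith
    | mul a b _ _ ha hb =>
      obtain ⟨C, hC, ha⟩ := ha
      obtain ⟨C', hC', hb⟩ := hb
      refine ⟨C' * (C + 1), by positivity, ?_⟩
      intro h l h0 hl x
      have h1 := S20_nonneg W h l h0 hl
      have h2 := ha h l h0 hl x
      have h3 := hb h l h0 hl (x * a)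
      rw [← mul_assoc]
      calc h (x * a * b) ≤ C' * (h (x * a) + l) := h3
        _ ≤ C' * (C * (h x + l) + l) := by gcongr
        _ ≤ C' * (C + 1) * (h x + l) := by
          have h4 : C' * (C + 1) * (h x + l) - C' * (C * (h x + l) + l) = C' * h x := by ring
          have h5 : 0 ≤ C' * h x := mul_nonneg hC' (h0 x)
          linarith
  obtain ⟨C, hC, hg⟩ := key g (by rw [W.gen]; trivial)
  refine ⟨C, hC, ?_⟩
  intro h l h0 hl
  refine ⟨S20_nonneg W h l h0 hl, ?_⟩
  have := hg h l h0 hl 1
  rwa [one_mul] at this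

end

end Pool.Agent.SG
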